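import Pool.Agent.Q61.DP.Stm

/-!
# Project DP, job DP-50: radial solutions of the Liouville equation
-/

set_option autoImplicit false

namespace Pool.Agent.Q198.DP

open Pool.Agent.Q61.DP
open scoped ContDiff

lemma real_const {F : ℂ → ℂ} (hF : Differentiable ℂ F) (hr : ∀ z, (F z).im = 0) (z w : ℂ) :
    F z = F w := by
  have hne : ∀ z, F z + Complex.I ≠ 0 := by
    intro z h
    have := congrArg Complex.im h
    simp [hr z] at this
  have hd : Differentiable ℂ fun z => (F z + Complex.I)⁻¹ := (hF.add_const _).fun_inv hne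
  have hb : Bornology.IsBounded (Set.range fun z => (F z + Complex.I)⁻¹) := by
    rw [isBounded_iff_forall_norm_le]
    refine ⟨1, ?_⟩
    rintro _ ⟨z, rfl⟩
    have h2 : 1 ≤ ‖F z + Complex.I‖ := by
      have := Complex.abs_im_le_norm (F z + Complex.I)
      simpa [hr z] using this
    simp only [norm_inv]
    exact inv_le_one_of_one_le₀ h2
  have h3 := inv_injective (hd.apply_eq_apply_of_bounded hb z w)
  exact add_right_cancel h3

/-- the Hessian of a function invariant under rotations -/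
lemma rot {V : ℂ → ℝ} (hV : ContDiff ℝ 2 V) (hr : ∀ w w' : ℂ, ‖w‖ = ‖w'‖ → V w = V w') (w : ℂ) :
    D2 V w w (Complex.I * w) = 0 ∧
      D2 V w (Complex.I * w) (Complex.I * w) = fderiv ℝ V w w := by
  have hd : Differentiable ℝ V := hV.differentiable (by norm_num)
  have hd2 : Differentiable ℝ (fderiv ℝ V) :=
    (hV.fderiv_right (m := 1) (by norm_num)).differentiable (by norm_num)
  have hE1 : ∀ w, fderiv ℝ V w (Complex.I * w) = 0 := by
    intro w
    have hc : HasDerivAt (fun θ : ℝ => Complex.exp (θ * Complex.I) * w) (Complex.I * w) 0 := by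
      have h1 : HasDerivAt (fun θ : ℝ => ((θ : ℂ) * Complex.I)) (Complex.I) 0 := by
        have := (Complex.ofRealCLM.hasDerivAt (x := (0 : ℝ))).mul_const Complex.I
        simpa using this
      have h2 := (h1.cexp).mul_const w
      simpa using h2
    have hcomp : HasDerivAt (fun θ : ℝ => V (Complex.exp (θ * Complex.I) * w))
        (fderiv ℝ V w (Complex.I * w)) 0 := by
      have h3 : HasFDerivAt V (fderiv ℝ V w) (Complex.exp (((0:ℝ) : ℂ) * Complex.I) * w) := by
        have h4 : Complex.exp (((0:ℝ) : ℂ) * Complex.I) * w = w := by simp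
        rw [h4]
        exact (hd w).hasFDerivAt
      exact h3.comp_hasDerivAt (0 : ℝ) hc
    have hconst : (fun θ : ℝ => V (Complex.exp (θ * Complex.I) * w)) = fun _ => V w := by
      funext θ
      apply hr
      rw [norm_mul, Complex.norm_exp_ofReal_mul_I, one_mul]
    rw [hconst] at hcomp
    exact hcomp.unique (hasDerivAt_const _ _)
  have hE2 : ∀ w q, fderiv ℝ V w (Complex.I * q) + D2 V w q (Complex.I * w) = 0 := by
    intro w q
    have h1 := ((hd2 w).hasFDerivAt).clm_apply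
      ((ContinuousLinearMap.mul ℝ ℂ Complex.I).hasFDerivAt (x := w))
    have h2 : (fun y => (fderiv ℝ V y) ((ContinuousLinearMap.mul ℝ ℂ Complex.I) y)) =
        fun _ => (0 : ℝ) := funext fun y => hE1 y
    rw [h2] at h1
    have h3 := h1.unique (hasFDerivAt_const (0 : ℝ) w)
    have h4 := congrArg (fun L => L q) h3
    simpa [D2] using h4
  constructor
  · have := hE2 w w
    rw [hE1 w, zero_add] at this
    exact this
  · have := hE2 w (Complex.I * w)
    have h2 : Complex.I * (Complex.I * w) = -w := by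
      rw [← mul_assoc, Complex.I_mul_I]
      ring
    rw [h2, map_neg] at this
    linarith

/-- the second derivative in the frame `p, i p` -/
lemma frame {V : ℂ → ℝ} (hV : ContDiff ℝ 2 V) (w p : ℂ) :
    (((D2 V w 1 1 - D2 V w Complex.I Complex.I : ℝ) : ℂ) -
      2 * Complex.I * (D2 V w 1 Complex.I : ℝ)) * p ^ 2 =
    ((D2 V w p p - D2 V w (Complex.I * p) (Complex.I * p) : ℝ) : ℂ) -
      2 * Complex.I * (D2 V w p (Complex.I * p) : ℝ) := by
  have hs : ∀ a b, D2 V w a b = D2 V w b a := by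
    intro a b
    have h := (hV.contDiffAt (x := w)).isSymmSndFDerivAt (by simp)
    exact h.eq a b
  have hbil : ∀ a b c d : ℝ, D2 V w ((a : ℂ) + b * Complex.I) ((c : ℂ) + d * Complex.I) =
      a * c * D2 V w 1 1 + (a * d + b * c) * D2 V w 1 Complex.I +
        b * d * D2 V w Complex.I Complex.I := by
    intro a b c d
    have e : ∀ a b : ℝ, (a : ℂ) + b * Complex.I = a • (1 : ℂ) + b • Complex.I := by
      intro a b
      simp [Complex.real_smul]
    have hsI := hs Complex.I 1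
    unfold D2 at hsI ⊢
    rw [e a b, e c d]
    simp only [map_add, map_smul, add_apply, smul_apply, smul_eq_mul]
    rw [hsI]
    ring
  have hp : p = ((p.re : ℝ) : ℂ) + ((p.im : ℝ) : ℂ) * Complex.I := (Complex.re_add_im p).symm
  have hIp : Complex.I * p = (((-p.im : ℝ)) : ℂ) + ((p.re : ℝ) : ℂ) * Complex.I := by
    apply Complex.ext <;> simp
  have h1 := hbil p.re p.im p.re p.im
  have h2 := hbil (-p.im) p.re (-p.im) p.re
  have h3 := hbil p.re p.im (-p.im) p.re
  rw [← hp] at h1 h3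
  rw [← hIp] at h2 h3
  rw [h1, h2, h3]
  conv_lhs => rw [hp]
  push_cast
  ring_nf
  simp only [Complex.I_sq, show Complex.I ^ 3 = -Complex.I by
    rw [pow_succ, Complex.I_sq]; ring]
  ring

/-- radial functions with vanishing `V_zz` -/
lemma quad {V : ℂ → ℝ} (hV : ContDiff ℝ 2 V) (hr : ∀ w w' : ℂ, ‖w‖ = ‖w'‖ → V w = V w')
    (h : ∀ w, D2 V w w w = fderiv ℝ V w w) : ∃ A B : ℝ, V = fun w => A + B * ‖w‖ ^ 2 := by
  have hd : Differentiable ℝ V := hV.differentiable (by norm_num)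
  have hd2 : Differentiable ℝ (fderiv ℝ V) :=
    (hV.fderiv_right (m := 1) (by norm_num)).differentiable (by norm_num)
  have hofR : ∀ t : ℝ, HasDerivAt (fun t : ℝ => (t : ℂ)) 1 t := fun t => by
    simpa using (hasDerivAt_id t).ofReal_comp
  -- the profile and its derivatives
  have hg : ∀ t : ℝ, HasDerivAt (fun t : ℝ => V t) (fderiv ℝ V t 1) t := fun t =>
    ((hd (t : ℂ)).hasFDerivAt).comp_hasDerivAt t (hofR t)
  have hG : ∀ t : ℝ, HasDerivAt (fun t : ℝ => fderiv ℝ V t 1) (D2 V t 1 1) t := by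
    intro t
    have h1 := ((hd2 (t : ℂ)).hasFDerivAt).comp_hasDerivAt t (hofR t)
    have h2 := h1.clm_apply (hasDerivAt_const t (1 : ℂ))
    simpa [D2] using h2
  have hode : ∀ t : ℝ, 0 < t → t * D2 V t 1 1 = fderiv ℝ V t 1 := by
    intro t ht
    have h1 := h (t : ℂ)
    have e : ((t : ℝ) : ℂ) = t • (1 : ℂ) := by simp [Complex.real_smul]
    have h2 : D2 V t t t = t * (t * D2 V t 1 1) := by
      unfold D2
      have h3 : ∀ L : ℂ →L[ℝ] ℂ →L[ℝ] ℝ, L (t : ℂ) (t : ℂ) = t * (t * L 1 1) := by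
        intro L
        rw [e, map_smul, map_smul, smul_apply, smul_eq_mul, smul_eq_mul]
      exact h3 _
    have h4 : fderiv ℝ V t t = t * fderiv ℝ V t 1 := by
      have h3 : ∀ L : ℂ →L[ℝ] ℝ, L (t : ℂ) = t * L 1 := by
        intro L
        rw [e, map_smul, smul_eq_mul]
      exact h3 _
    rw [h2, h4] at h1
    exact mul_left_cancel₀ ht.ne' h1
  have hk : ∀ t : ℝ, 0 < t → fderiv ℝ V t 1 / t = fderiv ℝ V ((1 : ℝ) : ℂ) 1 / 1 := by
    intro t ht
    have hder : ∀ s ∈ Set.Ioi (0 : ℝ),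
        HasDerivAt (fun s : ℝ => fderiv ℝ V s 1 / s) 0 s := by
      intro s hs
      have h1 := (hG s).div (hasDerivAt_id s) (ne_of_gt hs)
      have h2 : (D2 V s 1 1 * id s - fderiv ℝ V s 1 * 1) / id s ^ 2 = 0 := by
        rw [← hode s hs]
        simp [mul_comm]
      rw [h2] at h1
      exact h1
    exact isOpen_Ioi.is_const_of_deriv_eq_zero (isPreconnected_Ioi)
      (fun s hs => (hder s hs).differentiableAt.differentiableWithinAt)
      (fun s hs => (hder s hs).deriv) (Set.mem_Ioi.2 ht) (Set.mem_Ioi.2 one_pos)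
  set B : ℝ := fderiv ℝ V ((1 : ℝ) : ℂ) 1 / 2 with hB
  have hk2 : ∀ t : ℝ, 0 < t → fderiv ℝ V t 1 = 2 * B * t := by
    intro t ht
    have h1 := hk t ht
    rw [div_eq_iff ht.ne'] at h1
    rw [h1, hB]
    ring
  have hc : ∀ t : ℝ, 0 < t → V t - B * t ^ 2 = V ((1 : ℝ) : ℂ) - B * 1 ^ 2 := by
    intro t ht
    have hder : ∀ s ∈ Set.Ioi (0 : ℝ), HasDerivAt (fun s : ℝ => V s - B * s ^ 2) 0 s := by
      intro s hs
      have h1 := (hg s).sub (((hasDerivAt_pow 2 s)).const_mul B)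
      have h2 : fderiv ℝ V s 1 - B * (((2 : ℕ) : ℝ) * s ^ (2 - 1)) = 0 := by
        rw [hk2 s hs]
        norm_num
        ring
      rw [h2] at h1
      exact h1
    exact isOpen_Ioi.is_const_of_deriv_eq_zero (isPreconnected_Ioi)
      (fun s hs => (hder s hs).differentiableAt.differentiableWithinAt)
      (fun s hs => (hder s hs).deriv) (Set.mem_Ioi.2 ht) (Set.mem_Ioi.2 one_pos)
  refine ⟨V ((1 : ℝ) : ℂ) - B * 1 ^ 2, B, ?_⟩
  refine Continuous.ext_on (dense_compl_singleton (0 : ℂ)) hV.continuous (by fun_prop) ?_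
  intro w hw
  have hw0 : 0 < ‖w‖ := norm_pos_iff.2 hw
  have h1 := hc ‖w‖ hw0
  have h2 : V w = V ((‖w‖ : ℝ) : ℂ) := hr _ _ (by simp)
  show V w = _
  rw [h2]
  linarith

/-- the derivatives of the quadratic function -/
lemma quad_der (A B : ℝ) : fderiv ℝ (fun w : ℂ => A + B * ‖w‖ ^ 2) 0 = 0 ∧
    ∀ p q, D2 (fun w : ℂ => A + B * ‖w‖ ^ 2) 0 p q = 2 * B * inner ℝ p q := by
  have h1 : ∀ w : ℂ, HasFDerivAt (fun w : ℂ => A + B * ‖w‖ ^ 2)
      (B • ((2 : ℝ) • innerSL ℝ w)) w := by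
    intro w
    have h2 := (((hasStrictFDerivAt_norm_sq w).hasFDerivAt).const_mul B).const_add A
    have h3 : (2 : ℕ) • innerSL ℝ w = (2 : ℝ) • innerSL ℝ w := by
      rw [two_smul, two_smul]
    rw [← h3]
    exact h2
  have h2 : fderiv ℝ (fun w : ℂ => A + B * ‖w‖ ^ 2) = fun w => B • ((2 : ℝ) • innerSL ℝ w) :=
    funext fun w => (h1 w).fderiv
  refine ⟨by rw [h2]; simp, fun p q => ?_⟩
  unfold D2
  rw [h2]
  have h3 : HasFDerivAt (fun w : ℂ => B • ((2 : ℝ) • innerSL ℝ w))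
      (B • ((2 : ℝ) • (innerSL ℝ : ℂ →L[ℝ] ℂ →L[ℝ] ℝ))) 0 :=
    (((innerSL ℝ : ℂ →L[ℝ] ℂ →L[ℝ] ℝ).hasFDerivAt).const_smul (2 : ℝ)).const_smul B
  have h4 : ((innerSL ℝ : ℂ →L[ℝ] ℂ →L[ℝ] ℝ) p) q = inner ℝ p q := rfl
  rw [h3.fderiv]
  simp only [smul_apply, smul_eq_mul]
  rw [h4]
  ring

theorem t_C1 (h1 : S_D1a) (h2 : S_D1b) (h3 : S_D1c) : S_C1 := by
  intro u hu hrad
  obtain ⟨x₀, φ, hφ⟩ := hrad
  have hq : Differentiable ℂ (qd u) := h1 _ (h2 u hu).1 (h2 u hu).2
  obtain ⟨v, hv, hv2, hlap, hH⟩ := h3 u hu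
  obtain ⟨V, hV⟩ : ∃ V : ℂ → ℝ, V = fun w => v (x₀ + w) := ⟨_, rfl⟩
  have hVc : ContDiff ℝ 2 V := by
    rw [hV]
    exact hv2.comp (contDiff_const.add contDiff_id)
  have hV1 : ∀ w, fderiv ℝ V w = fderiv ℝ v (x₀ + w) := fun w => by
    rw [hV]
    exact fderiv_comp_add_left x₀
  have hV2 : ∀ w p q, D2 V w p q = D2 v (x₀ + w) p q := by
    intro w p q
    have h5 : fderiv ℝ V = fun w => fderiv ℝ v (x₀ + w) := funext hV1
    have h6 : fderiv ℝ (fun w => fderiv ℝ v (x₀ + w)) w = fderiv ℝ (fderiv ℝ v) (x₀ + w) :=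
      fderiv_comp_add_left x₀
    unfold D2
    rw [h5, h6]
  have hVr : ∀ w w' : ℂ, ‖w‖ = ‖w'‖ → V w = V w' := by
    intro w w' h
    simp only [hV, hv, hφ]
    rw [add_sub_cancel_left, add_sub_cancel_left, h]
  have hVpos : ∀ w, 0 < V w := by
    intro w
    simp only [hV, hv]
    exact Real.exp_pos _
  have hrot := rot hVc hVr
  -- the quadratic differential vanishes
  have hmain : ∀ w, (w ^ 2 * qd u (x₀ + w)) * (V w : ℂ) =
      -((D2 V w w w - fderiv ℝ V w w : ℝ) : ℂ) := by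
    intro w
    have h5 := frame hVc w w
    rw [(hrot w).1, (hrot w).2, hV2 w 1 1, hV2 w Complex.I Complex.I, hV2 w 1 Complex.I,
      hH (x₀ + w)] at h5
    have h6 : v (x₀ + w) = V w := by rw [hV]
    rw [h6] at h5
    have h7 : (w ^ 2 * qd u (x₀ + w)) * (V w : ℂ) = -(-(qd u (x₀ + w)) * (V w : ℂ) * w ^ 2) := by
      ring
    rw [h7, h5]
    simp
  have hF : Differentiable ℂ fun w => w ^ 2 * qd u (x₀ + w) :=
    (differentiable_pow 2).mul (hq.comp (differentiable_const x₀ |>.add differentiable_id))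
  have hFim : ∀ w, (w ^ 2 * qd u (x₀ + w)).im = 0 := by
    intro w
    have h5 := congrArg Complex.im (hmain w)
    rw [Complex.im_mul_ofReal, Complex.neg_im, Complex.ofReal_im, neg_zero] at h5
    exact (mul_eq_zero.1 h5).resolve_right (hVpos w).ne'
  have hF0 : ∀ w, w ^ 2 * qd u (x₀ + w) = 0 := by
    intro w
    have h5 := real_const hF hFim w 0
    simpa using h5
  have hrad2 : ∀ w, D2 V w w w = fderiv ℝ V w w := by
    intro w
    have h5 := hmain w
    rw [hF0 w, zero_mul] at h5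
    have h6 : ((D2 V w w w - fderiv ℝ V w w : ℝ) : ℂ) = 0 := by
      rw [← neg_eq_zero, ← h5]
    have h7 := Complex.ofReal_eq_zero.1 h6
    linarith
  obtain ⟨A, B, hAB⟩ := quad hVc hVr hrad2
  have hA : 0 < A := by
    have h5 := hVpos 0
    rw [hAB] at h5
    simpa using h5
  have h4AB : A * (4 * B) = 1 := by
    have h5 := hlap x₀
    have h6 := hV1 0
    have h7 : ∀ p q, D2 v x₀ p q = 2 * B * inner ℝ p q := by
      intro p q
      have := hV2 0 p q
      rw [add_zero] at this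
      rw [← this, hAB]
      exact (quad_der A B).2 p q
    rw [add_zero, hAB, (quad_der A B).1] at h6
    have h8 : v x₀ = A := by
      have : V 0 = v x₀ := by rw [hV]; simp
      rw [← this, hAB]
      simp
    rw [← h6, h8, h7, h7] at h5
    simp at h5
    linarith
  have hBpos : 0 < B := by
    by_contra h
    push Not at h
    nlinarith
  refine ⟨2 * B, x₀, by positivity, fun x => ?_⟩
  have h5 : Real.exp (-(u x)) = A + B * ‖x - x₀‖ ^ 2 := by
    have h6 : V (x - x₀) = v x := by rw [hV]; simp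
    rw [← hv x, ← h6, hAB]
  have hpos : 0 < A + B * ‖x - x₀‖ ^ 2 := by positivity
  have h6 : u x = Real.log ((A + B * ‖x - x₀‖ ^ 2)⁻¹) := by
    rw [← h5, ← Real.exp_neg, neg_neg, Real.log_exp]
  rw [h6]
  congr 1
  have hpos2 : 0 < 1 + (2 * B) ^ 2 * ‖x - x₀‖ ^ 2 := by positivity
  rw [inv_eq_one_div, div_eq_div_iff hpos.ne' hpos2.ne']
  have h7 : (2 * B) ^ 2 * ‖x - x₀‖ ^ 2 = 4 * B * (B * ‖x - x₀‖ ^ 2) := by ring
  have h8 : 2 * (2 * B) * (A + B * ‖x - x₀‖ ^ 2) = A * (4 * B) + 4 * B * (B * ‖x - x₀‖ ^ 2) := by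
    ring
  rw [h7, h8, h4AB]
  ring

end Pool.Agent.Q198.DP
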